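import Pool.Agent.H70.RW.T
import Pool.Agent.H46.RK.ANL

/-!
# INS, ANL: the instance strings and their answers
-/

set_option autoImplicit false

namespace Pool.Agent.H46.RW

open Pool.Agent.H6.NB Pool.Agent.H70.OQ Pool.Agent.H70.RW

/-- The instance strings determine the machine and the input. -/
theorem inw_inj (hCOD : Pool.Agent.H6.NB.T_COD) {c c' i j : ℕ} {x y : List Bool}
    (h : inw c i x = inw c' j y) : i = j ∧ x = y := by
  obtain ⟨h1, h2, -⟩ := hCOD.1 _ _ _ _ _ _ h
  refine ⟨?_, h1⟩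
  have := congrArg List.length h2
  simpa using this

/-- (INS) -/
theorem pf_INS (hCOD : Pool.Agent.H6.NB.T_COD) : Pool.Agent.H70.RW.T_INS := by
  intro κ V O i x
  constructor
  · rintro ⟨j, y, h, hy⟩
    obtain ⟨h1, h2⟩ := inw_inj hCOD h
    subst h1
    subst h2
    exact hy
  · intro h
    exact ⟨i, x, rfl, h⟩

theorem inw_length (hCOD : Pool.Agent.H6.NB.T_COD) (c i : ℕ) (x : List Bool) :
    x.length ^ c + c + 1 ≤ (inw c i x).length := by
  unfold inw
  rw [hCOD.2]
  have h1 : x.length ^ c + c + 1 ≤ (x.length ^ c + c + 1) ^ (i + 2) :=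
    Nat.le_self_pow (by omega) _
  omega

/-- (ANL) -/
theorem pf_ANL (hCOD : Pool.Agent.H6.NB.T_COD) : Pool.Agent.H70.RW.T_ANL := by
  intro κ V O O' s h
  refine exists_congr fun i => exists_congr fun x => and_congr_right fun hs => ?_
  have h1 := inw_length hCOD (V i).c i x
  rw [← hs] at h1
  refine Pool.Agent.H46.RK.alt_congr _ (κ i) true _ _ fun ws hws hR => ?_
  rw [Pool.Agent.H46.RK.eval_short _ O O' ?_ _ ((V i).short x ws hws hR)]
  intro v hv
  apply h
  omega

end Pool.Agent.H46.RW
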