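import Pool.Agent.H70.RW.T

/-!
# BAS: the oracle with junk in the arrays
-/

set_option autoImplicit false

namespace Pool.Agent.H46.RW

open Pool.Agent.H70.RW

theorem pf_BAS (hSTR : Pool.Agent.H70.RW.T_STR) : Pool.Agent.H70.RW.T_BAS := by
  refine ⟨fun D p => ?_, fun D w hw => ?_⟩
  · have hex : ∃ q : Ps, str q = str p := ⟨p, rfl⟩
    unfold base
    rw [dif_pos hex]
    have h1 : hex.choose = p := hSTR.1 hex.choose_spec
    rw [h1]
  · unfold base
    rw [dif_neg]
    rintro ⟨p, hp⟩
    exact hw p hp.symm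

end Pool.Agent.H46.RW
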