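import Pool.Agent.H70.RW.T
import Pool.Agent.H46.RK.CONB

/-!
# CON: contents of the blocks
-/

set_option autoImplicit false

namespace Pool.Agent.H46.RW

open Pool.Agent.H70.RW

theorem pf_CON (hBLX : Pool.Agent.H78.XQ.T_BLX) (hMAS : Pool.Agent.H78.XQ.T_MAS)
    (hSTR : Pool.Agent.H70.RW.T_STR) (hCLB : Pool.Agent.H6.NB.T_CLB) : Pool.Agent.H70.RW.T_CON :=
  fun p b => Pool.Agent.H46.RK.con_aux hBLX hMAS hCLB _ _ _ _ _ (hSTR.2.2.2.2 p) b

end Pool.Agent.H46.RW
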