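import Pool.Agent.H70.RW.T

/-!
# MUM: the masses
-/

set_option autoImplicit false

namespace Pool.Agent.H46.RW

open Finset Pool.Agent.H6.NB Pool.Agent.H70.OQ Pool.Agent.H70.EH Pool.Agent.H70.EI
open Pool.Agent.H78.XQ Pool.Agent.H70.RW
open Pool.Agent.H70.RK (Hn adr)

theorem pf_MUM (hMAS : Pool.Agent.H78.XQ.T_MAS) : Pool.Agent.H70.RW.T_MUM := by
  classical
  intro K n N
  refine ⟨fun σ => ?_, ?_, fun σ hσ p => ?_⟩
  · unfold Pool.Agent.H70.RW.mu
    exact mul_nonneg (by positivity) (Finset.prod_nonneg fun p _ =>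
      ((hMAS _ _ _ _).2.2 _).1 _)
  · obtain ⟨cR, hcR⟩ : ∃ c : ℝ, c = Fintype.card (Rs K n N) := ⟨_, rfl⟩
    obtain ⟨cH, hcH⟩ : ∃ c : ℝ, c = Fintype.card (Hi K n N) := ⟨_, rfl⟩
    obtain ⟨cA, hcA⟩ : ∃ c : ℝ, c = Fintype.card (Ar n N) := ⟨_, rfl⟩
    have h0 : (0 : ℝ) ≤ 1 / (cR * cH * cA) := by
      rw [hcR, hcH, hcA]
      positivity
    have h1 : ∀ (y : Rs K n N) (H : Hi K n N) (h : Ar n N),
        ∑ P : Bl n N, mu (y, H, h, P) ≤ 1 / (cR * cH * cA) := by
      intro y H h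
      have h2 : ∑ P : Bl n N, mu (y, H, h, P) = 1 / (cR * cH * cA) *
          ∏ p : Bi n N, ∑ c : CB (hl p),
          mB (qs (hl p)) (hl p).length (rns (hl p)) (wln (hl p)) (adk y H p.1 p.2.1 p.2.2) c := by
        rw [Fintype.prod_sum, Finset.mul_sum, hcR, hcH, hcA]
        rfl
      rw [h2]
      have h3 : ∏ p : Bi n N, ∑ c : CB (hl p),
          mB (qs (hl p)) (hl p).length (rns (hl p)) (wln (hl p)) (adk y H p.1 p.2.1 p.2.2) c ≤ 1 :=
        Finset.prod_le_one (fun p _ => Finset.sum_nonneg fun c _ => ((hMAS _ _ _ _).2.2 _).1 _)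
          fun p _ => ((hMAS _ _ _ _).2.2 _).2
      calc 1 / (cR * cH * cA) * _ ≤ 1 / (cR * cH * cA) * 1 := mul_le_mul_of_nonneg_left h3 h0
        _ = _ := mul_one _
    have h4 : ∑ σ : Se K n N, mu σ =
        ∑ y : Rs K n N, ∑ H : Hi K n N, ∑ h : Ar n N, ∑ P : Bl n N, mu (y, H, h, P) := by
      unfold Se.fint
      rw [Fintype.sum_prod_type]
      refine Finset.sum_congr rfl fun y _ => ?_
      rw [Fintype.sum_prod_type]
      refine Finset.sum_congr rfl fun H _ => ?_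
      rw [Fintype.sum_prod_type]
    rw [h4]
    calc ∑ y : Rs K n N, ∑ H : Hi K n N, ∑ h : Ar n N, ∑ P : Bl n N, mu (y, H, h, P)
        ≤ ∑ _y : Rs K n N, ∑ _H : Hi K n N, ∑ _h : Ar n N, 1 / (cR * cH * cA) :=
          Finset.sum_le_sum fun y _ => Finset.sum_le_sum fun H _ => Finset.sum_le_sum fun h _ =>
            h1 y H h
      _ = (cR * cH * cA) / (cR * cH * cA) := by
          rw [Finset.sum_const, Finset.sum_const, Finset.sum_const, Finset.card_univ,
            Finset.card_univ, Finset.card_univ, nsmul_eq_mul, nsmul_eq_mul, nsmul_eq_mul,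
            ← hcR, ← hcH, ← hcA]
          ring
      _ ≤ 1 := div_self_le_one _
  · by_contra hcon
    apply hσ
    unfold Pool.Agent.H70.RW.mu
    rw [Finset.prod_eq_zero (Finset.mem_univ p), mul_zero]
    unfold mB
    exact if_neg hcon

end Pool.Agent.H46.RW
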