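import Pool.Agent.H70.RW.T

/-!
# ORC: the values of the oracle
-/

set_option autoImplicit false

namespace Pool.Agent.H46.RW

open Pool.Agent.H6.NB Pool.Agent.H70.OQ Pool.Agent.H70.RW

variable {κ : ℕ → ℕ} {V : (i : ℕ) → Machine (κ i)} {D : Dat}

theorem star_eq (D : Dat) (s : List Bool) : star D s = str (.inr (.inl ⟨s, D.a s⟩)) := rfl

theorem star_inj (hSTR : Pool.Agent.H70.RW.T_STR) {D : Dat} {s s' : List Bool}
    (h : star D s = star D s') : s = s' :=
  hSTR.2.2.2.1 s s' (D.a s) (D.a s') h

theorem str_eq_star (hSTR : Pool.Agent.H70.RW.T_STR) {D : Dat} {s : List Bool}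
    {p : Ps} (h : str p = star D s) : p = .inr (.inl ⟨s, D.a s⟩) := hSTR.1 h

theorem lt_star (hSTR : Pool.Agent.H70.RW.T_STR) (D : Dat) (s : List Bool) :
    s.length < (star D s).length := hSTR.2.2.1 s (D.a s)

open Classical in
theorem lev_succ_of (L : ℕ) (w : List Bool) (h : ∀ s : List Bool, s.length = L → w ≠ star D s) :
    lev V D (L + 1) w = lev V D L w := by
  have h1 : lev V D (L + 1) w = if h : ∃ s : List Bool, s.length = L ∧ w = star D s then
      decide (ans V (lev V D L) h.choose) else lev V D L w := rfl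
  rw [h1, dif_neg]
  rintro ⟨s, h2, h3⟩
  exact h s h2 h3

open Classical in
theorem lev_star (hSTR : Pool.Agent.H70.RW.T_STR) (s : List Bool) :
    (lev V D (s.length + 1) (star D s) = true ↔ ans V (lev V D s.length) s) := by
  have h1 : ∃ s' : List Bool, s'.length = s.length ∧ star D s = star D s' := ⟨s, rfl, rfl⟩
  have h2 : lev V D (s.length + 1) (star D s) =
      if h : ∃ s' : List Bool, s'.length = s.length ∧ star D s = star D s' then
      decide (ans V (lev V D s.length) h.choose)
      else lev V D s.length (star D s) := rfl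
  rw [h2, dif_pos h1]
  have h3 : h1.choose = s := (star_inj hSTR h1.choose_spec.2).symm
  rw [h3, decide_eq_true_iff]

theorem lev_of_le (hSTR : Pool.Agent.H70.RW.T_STR) (w : List Bool) (L : ℕ)
    (h : w.length ≤ L) : lev V D L w = orc V D w := by
  induction L, h using Nat.le_induction with
  | base => rfl
  | succ L hL ih =>
    rw [lev_succ_of, ih]
    intro s hs h1
    have h2 := lt_star hSTR D s
    rw [← h1] at h2
    omega

theorem lev_base (w : List Bool) (h : ∀ s, w ≠ star D s) (L : ℕ) : lev V D L w = base D w := by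
  induction L with
  | zero => rfl
  | succ L ih => rw [lev_succ_of L w fun s _ => h s, ih]

theorem orc_base (w : List Bool) (h : ∀ s, w ≠ star D s) : orc V D w = base D w :=
  lev_base w h w.length

theorem orc_star (hSTR : Pool.Agent.H70.RW.T_STR) (hANL : Pool.Agent.H70.RW.T_ANL)
    (s : List Bool) : (orc V D (star D s) = true ↔ ans V (orc V D) s) := by
  have h1 : ∀ L, s.length + 1 ≤ L → lev V D L (star D s) = lev V D (s.length + 1) (star D s) := by
    intro L hL
    induction L, hL using Nat.le_induction with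
    | base => rfl
    | succ L hL ih =>
      rw [lev_succ_of, ih]
      intro s' hs' h2
      rw [← star_inj hSTR h2] at hs'
      omega
  have h2 : orc V D (star D s) = lev V D (s.length + 1) (star D s) := h1 _ (lt_star hSTR D s)
  rw [h2, lev_star hSTR]
  refine hANL κ V _ _ s fun w hw => ?_
  exact lev_of_le hSTR w s.length hw.le

theorem agr_mono {Z Z' : ℕ → Prop} {D D' : Dat} (h : ∀ i, Z' i → Z i) (hA : Agr Z D D') :
    Agr Z' D D' := by
  obtain ⟨h1, h2, h3, h4⟩ := hA
  exact ⟨fun n hn => h1 n (h n hn), fun s hs => h2 s (h _ hs), fun s hs => h3 s (h _ hs),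
    fun p hp => h4 p (h _ hp)⟩

theorem val_agr {D D' : Dat} {Z : ℕ → Prop} (hA : Agr Z D D') (p : Ps) (hp : Z (lvl p)) :
    val D p = val D' p := by
  obtain ⟨h1, h2, h3, h4⟩ := hA
  rcases p with x | x | x | x
  · exact congrFun (h1 x.1 hp) x.2
  · exact congrFun (h3 x.1 hp) x.2
  · have h5 := h4 x.1 hp
    change (D.c x.1).1 x.2.1 x.2.2 = (D'.c x.1).1 x.2.1 x.2.2
    rw [h5]
  · have h5 := h4 x.1 hp
    change (D.c x.1).2 x.2 = (D'.c x.1).2 x.2
    rw [h5]

theorem orc_loc (hSTR : Pool.Agent.H70.RW.T_STR) (hANL : Pool.Agent.H70.RW.T_ANL)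
    (hBAS : Pool.Agent.H70.RW.T_BAS) (D' : Dat) (m : ℕ)
    (hA : Agr (fun i => i < m) D D') :
    (∀ p : Ps, lvl p < m → orc V D (str p) = orc V D' (str p)) ∧
    ∀ w : List Bool, w.length ≤ m → orc V D w = orc V D' w := by
  induction m using Nat.strong_induction_on with
  | _ m ih =>
    have h1 : ∀ p : Ps, lvl p < m → orc V D (str p) = orc V D' (str p) := by
      intro p hp
      have hst : ∀ s : List Bool, s.length < m → star D s = star D' s := by
        intro s hs
        rw [star_eq, star_eq, hA.2.1 s hs]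
      by_cases h2 : ∃ s, str p = star D s
      · obtain ⟨s, hs⟩ := h2
        have h3 := str_eq_star hSTR hs
        have h4 : s.length < m := by
          rw [h3] at hp
          exact hp
        have h5 : ans V (orc V D) s ↔ ans V (orc V D') s := by
          refine hANL κ V _ _ s fun w hw => ?_
          exact (ih s.length h4 (agr_mono (fun i hi => hi.trans h4) hA)).2 w hw.le
        have h6 : orc V D (str p) = true ↔ orc V D' (str p) = true := by
          rw [hs, orc_star hSTR hANL, h5, hst s h4, orc_star hSTR hANL]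
        exact Bool.eq_iff_iff.2 h6
      · have h3 : ∀ s, str p ≠ star D s := fun s hs => h2 ⟨s, hs⟩
        have h4 : ∀ s, str p ≠ star D' s := by
          intro s hs
          have h5 := str_eq_star hSTR hs
          have h6 : s.length < m := by
            rw [h5] at hp
            exact hp
          exact h3 s (hs.trans (hst s h6).symm)
        rw [orc_base _ h3, orc_base _ h4, hBAS.1, hBAS.1]
        exact val_agr hA p hp
    refine ⟨h1, fun w hw => ?_⟩
    by_cases h2 : ∃ p : Ps, str p = w
    · obtain ⟨p, rfl⟩ := h2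
      exact h1 p ((hSTR.2.1 p).trans_le hw)
    · have h3 : ∀ D'' : Dat, orc V D'' w = false := by
        intro D''
        rw [orc_base w fun s hs => h2 ⟨_, (hs.trans (star_eq D'' s)).symm⟩]
        exact hBAS.2 D'' w fun p hp => h2 ⟨p, hp.symm⟩
      rw [h3, h3]

/-- ORC -/
theorem pf_ORC (hSTR : Pool.Agent.H70.RW.T_STR) (hANL : Pool.Agent.H70.RW.T_ANL)
    (hBAS : Pool.Agent.H70.RW.T_BAS) : Pool.Agent.H70.RW.T_ORC := by
  intro κ V D
  exact ⟨fun w h => orc_base w h, fun s => orc_star hSTR hANL s,
    fun D' m hA => orc_loc hSTR hANL hBAS D' m hA⟩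

end Pool.Agent.H46.RW
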